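import Pool.Agent.K7.H69.LC.ALG
import Pool.Agent.K7.H29.LC.CODE
import Pool.Agent.K7.H15.LC.LUCKY
import Pool.Agent.K7.H34.LC.ENUM
import Pool.Agent.K7.H20.LC.LUCK
import Pool.Agent.K7.H53.LC.STRUCT

/-!
# Stirling permutations with exactly one unlucky letter: closed form of `a(n, n - 1)`
-/

set_option autoImplicit false

namespace Pool.Agent.Results.MP_d4a4cd_co.OneUnluckyLetter

open Pool.Agent.K7.H69.LC

/-- For every `n ≥ 1` the number `a(n, n - 1)` of Stirling permutations of order `n` with exactly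
`n - 1` lucky cars is `((n + 3) * 4 ^ n - 4 * (n + 1) * binom (2 n, n)) / 8`. -/
theorem result (n : ℕ) (hn : 1 ≤ n) :
    8 * {w : List ℕ | IsStirling n w ∧ lucky ∅ w = n - 1}.ncard +
      4 * (n + 1) * (2 * n).choose n = (n + 3) * 4 ^ n := by
  obtain ⟨m, rfl⟩ : ∃ m, n = m + 1 := ⟨n - 1, by omega⟩
  have h1 := Pool.Agent.K7.H34.LC.enum Pool.Agent.K7.H53.LC.stStruct Pool.Agent.K7.H53.LC.stLen
    Pool.Agent.K7.H53.LC.stInj Pool.Agent.K7.H29.LCCODE.t Pool.Agent.K7.H15.LCLUCKY.t (m + 1) 1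
  rw [Pool.Agent.K7.H20.LC.one] at h1
  have h2 : {w : List ℕ | IsStirling (m + 1) w ∧ lucky ∅ w = m + 1 - 1} =
      {w : List ℕ | IsStirling (m + 1) w ∧ lucky ∅ w + 1 = m + 1} := by
    ext w
    simp only [Set.mem_setOf_eq]
    constructor
    · rintro ⟨a, b⟩
      exact ⟨a, by omega⟩
    · rintro ⟨a, b⟩
      exact ⟨a, by omega⟩
  rw [h2, h1]
  have h3 := stAlg m
  rw [show m + 1 + 1 = m + 2 by ring, show m + 1 + 3 = m + 4 by ring]
  exact h3

end Pool.Agent.Results.MP_d4a4cd_co.OneUnluckyLetter
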